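import Pool.Agent.H.MP_037b14_pr.C

namespace Pool.Agent.Results.MP_037b14_pr.NoMonotone

open Finset Filter Topology

/-- cop strategy: maps `c_s : V × V → V` with `c_s(u,v) ∈ {u} ∪ N(u)` -/
def CopStrat {V : Type} (G : SimpleGraph V) (cs : ℕ → V → V → V) : Prop :=
  ∀ s u v, cs s u v = u ∨ G.Adj u (cs s u v)

/-- robber strategy: maps `r_s : V × V → V` with `r_s(u,v) ∈ N(v)` -/
def RobStrat {V : Type} (G : SimpleGraph V) (rs : ℕ → V → V → V) : Prop :=
  ∀ s u v, G.Adj v (rs s u v)

/-- sober cop moves never increase the graph distance to the robber -/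
def MonotoneStrat {V : Type} (G : SimpleGraph V) (cs : ℕ → V → V → V) : Prop :=
  ∀ s u v, G.dist (cs s u v) v ≤ G.dist u v

open Classical in
/-- `surv G c r tc tr cs rs k s u v` is the probability, for the process that is at
`(C_s, R_s) = (u, v)` at time `s`, that `C_j ≠ R_j` for all `j = s, s+1, …, s+k`
(first-step recursion of the Markov chain). -/
noncomputable def surv {V : Type} (G : SimpleGraph V) [G.LocallyFinite] (c r tc tr : ℝ)
    (cs rs : ℕ → V → V → V) : ℕ → ℕ → V → V → ℝ
  | 0, _, u, v => if u = v then 0 else 1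
  | k + 1, s, u, v => if u = v then 0 else
      c * surv G c r tc tr cs rs k (s + 1) (cs s u v) v
      + r * surv G c r tc tr cs rs k (s + 1) u (rs s u v)
      + tc * ((∑ w ∈ G.neighborFinset u, surv G c r tc tr cs rs k (s + 1) w v) / G.degree u)
      + tr * ((∑ w ∈ G.neighborFinset v, surv G c r tc tr cs rs k (s + 1) u w) / G.degree v)

/-- The cop strategy `cs` is winning from `(C₀, R₀)`: against every robber strategy the
probability of no capture up to time `k` tends to `0`, i.e. capture happens almost surely. -/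
def Winning {V : Type} (G : SimpleGraph V) [G.LocallyFinite] (c r tc tr : ℝ) (C₀ R₀ : V)
    (cs : ℕ → V → V → V) : Prop :=
  ∀ rs, RobStrat G rs → Tendsto (fun k => surv G c r tc tr cs rs k 0 C₀ R₀) atTop (𝓝 0)

open Pool.Agent.H.MP_037b14_pr in
theorem isSurv (cs rs : ℕ → V → V → V) :
    IsSurv cs rs (surv G (459 / 1000) (1 / 1000) (539 / 1000) (1 / 1000) cs rs) :=
  ⟨fun _ _ _ => by rw [surv], fun _ _ _ _ => by rw [surv]; rfl⟩

open Pool.Agent.H.MP_037b14_pr in
theorem result : ∃ (V : Type) (G : SimpleGraph V) (_ : G.LocallyFinite), G.Connected ∧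
    ∃ c r tc tr : ℝ, 0 < c ∧ 0 < r ∧ 0 < tc ∧ 0 < tr ∧ c + r + tc + tr = 1 ∧ ∃ C₀ R₀ : V,
      (∃ cs, CopStrat G cs ∧ Winning G c r tc tr C₀ R₀ cs) ∧
      ∀ cs, CopStrat G cs → MonotoneStrat G cs → ¬ Winning G c r tc tr C₀ R₀ cs := by
  refine ⟨V, G, instLF, conn, 459 / 1000, 1 / 1000, 539 / 1000, 1 / 1000, by norm_num,
    by norm_num, by norm_num, by norm_num, by norm_num, start, root,
    ⟨fun _ => cop, fun _ u v => Or.inr (cop_adj u v), ?_⟩, ?_⟩
  · intro rs hr
    exact (isSurv _ rs).win phi phi_nonneg (fun s u v huv => win_step rs hr s u v huv) start root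
  · intro cs hc hm hw
    have hr : RobStrat G (fun _ _ v => up v) := fun _ _ v => adj_up v
    have h1 := hw _ hr
    have h2 := (isSurv cs (fun _ _ v => up v)).lose gg (fun u => gg_near u u (by omega)) gg_nonneg
      (fun s u v => lose_step cs _ hc hm hr s u v)
    have h3 := ge_of_tendsto' h1 (fun k => h2 k 0 start root)
    have := gg_start
    linarith

end Pool.Agent.Results.MP_037b14_pr.NoMonotone
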